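import Pool.Agent.R490.LPi

set_option autoImplicit false

/-!
# Almost primes `a j p + c` with small `j` for almost all primes `p`
-/

namespace Pool.Agent.Results.MP_2f88e5_nt.AlmostPrimesForAlmostAllPrimes

open Finset Filter

open Classical in
/-- the number of the integers `1 ≤ j ≤ T` such that `a j p + c ≥ 2` has at most `k` prime factors (counted with
multiplicity), all of them at least `w` -/
noncomputable def almostPrimes (a : ℕ) (c : ℤ) (p k : ℕ) (w T : ℝ) : ℕ :=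
  ((Icc 1 ⌊T⌋₊).filter (fun j : ℕ => ∃ N : ℕ, (N : ℤ) = a * j * p + c ∧ 2 ≤ N ∧
    N.primeFactorsList.length ≤ k ∧ ∀ q : ℕ, q.Prime → q ∣ N → w ≤ q)).card

lemma cnt_eq (a : ℕ) (c : ℤ) (p k : ℕ) (w T : ℝ) :
    R490.LGb.cnt (fun j => a * j) (fun _ => c) k ⌊T⌋₊ p w ≤ almostPrimes a c p k w T := by
  classical
  unfold R490.LGb.cnt almostPrimes
  apply card_le_card
  intro j hj
  rw [mem_filter] at hj ⊢
  obtain ⟨h1, h2, h3, h4⟩ := hj
  obtain ⟨N, hN⟩ : ∃ N : ℕ, (N : ℤ) = ((a * j : ℕ) : ℤ) * p + c :=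
    ⟨(((a * j : ℕ) : ℤ) * p + c).toNat, Int.toNat_of_nonneg (by linarith)⟩
  rw [← hN] at h2 h3 h4
  rw [Int.toNat_natCast] at h3
  refine ⟨h1, N, ?_, by exact_mod_cast h2, h3, ?_⟩
  · rw [hN]
    push_cast
    ring
  · intro q hq hd
    exact h4 q hq (by exact_mod_cast hd)

/-- **Almost primes `a j p + c` for almost all primes `p`.** -/
theorem result (a : ℕ) (c : ℤ) (ha : 1 ≤ a) (hc : c ≠ 0) (hac : a.Coprime c.natAbs) (θ ε : ℝ) (k : ℕ)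
    (hθ : 0 < θ) (hθ1 : θ ≤ 1) (hk : 1 / 8 + 25 / (12 * θ) < k) (hε : 0 < ε) :
    ∃ κ Λ : ℝ, 0 < κ ∧ 0 < Λ ∧ ∀ l : ℝ, Λ ≤ l → ∃ X₀ : ℕ, ∀ X : ℕ, X₀ ≤ X → ∀ Z L : ℕ,
      (X : ℝ) ^ θ ≤ L → Z + L ≤ X →
      (({p : ℕ | p ∈ Ioc Z (Z + L) ∧ p.Prime ∧
        (almostPrimes a c p k ((X : ℝ) ^ (θ / 10)) (l * Real.log X) : ℝ) < κ * l} : Set ℕ).ncard : ℝ) ≤
        ε * L / Real.log X := by
  classical
  obtain ⟨κ, Λ, hκ, hΛ, h⟩ := R490.LPi.mainQ a c ha hc hac θ (ε / 2) k hθ hθ1 hk (by positivity)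
  refine ⟨κ, Λ, hκ, hΛ, ?_⟩
  intro l hl
  have tl : Tendsto (fun X : ℕ => Real.log (X : ℝ)) atTop atTop :=
    Real.tendsto_log_atTop.comp tendsto_natCast_atTop_atTop
  have e2 := Pool.Agent.TH464.PW.logpow_rpow 1 ((c.natAbs + 1) / (ε / 2)) θ (by positivity) hθ
  obtain ⟨X₀, hX₀⟩ := eventually_atTop.1 (((h l hl).and (tl.eventually_ge_atTop 1)).and e2)
  refine ⟨X₀, ?_⟩
  intro X hX Z L hL hZ
  obtain ⟨⟨h1, h2⟩, h3⟩ := hX₀ X hX
  have h4 := h1 Z L hL hZ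
  obtain ⟨T, hT⟩ : ∃ T, T = (Ioc Z (Z + L)).filter (fun n => n.Prime ∧ R490.LPi.AdmQ a c n ∧
        (R490.LGb.cnt (fun j => a * j) (fun _ => c) k ⌊l * Real.log X⌋₊ n ((X : ℝ) ^ (θ / 10)) : ℝ) < κ * l) :=
    ⟨_, rfl⟩
  rw [← hT] at h4
  have hsub : ({p : ℕ | p ∈ Ioc Z (Z + L) ∧ p.Prime ∧
        (almostPrimes a c p k ((X : ℝ) ^ (θ / 10)) (l * Real.log X) : ℝ) < κ * l} : Set ℕ) ⊆
      ((Ioc 0 c.natAbs ∪ T : Finset ℕ) : Set ℕ) := by
    intro p hp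
    obtain ⟨a1, a2, a3⟩ := hp
    rw [mem_coe, mem_union]
    by_cases hpc : p ∣ c.natAbs
    · left
      rw [mem_Ioc]
      exact ⟨a2.pos, Nat.le_of_dvd (Nat.pos_of_ne_zero (Int.natAbs_ne_zero.2 hc)) hpc⟩
    · right
      rw [hT, mem_filter]
      refine ⟨a1, a2, ?_, ?_⟩
      · unfold R490.LPi.AdmQ
        exact Nat.Coprime.mul_left hac ((Nat.Prime.coprime_iff_not_dvd a2).2 hpc)
      · have a4 := cnt_eq a c p k ((X : ℝ) ^ (θ / 10)) (l * Real.log X)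
        have a5 : (R490.LGb.cnt (fun j => a * j) (fun _ => c) k ⌊l * Real.log X⌋₊ p ((X : ℝ) ^ (θ / 10)) : ℝ) ≤
            almostPrimes a c p k ((X : ℝ) ^ (θ / 10)) (l * Real.log X) := by exact_mod_cast a4
        linarith
  have h5 := Set.ncard_le_ncard hsub (Finset.finite_toSet _)
  rw [Set.ncard_coe_finset] at h5
  have h6 := h5.trans (card_union_le _ _)
  rw [Nat.card_Ioc, Nat.sub_zero] at h6
  have h7 : (({p : ℕ | p ∈ Ioc Z (Z + L) ∧ p.Prime ∧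
        (almostPrimes a c p k ((X : ℝ) ^ (θ / 10)) (l * Real.log X) : ℝ) < κ * l} : Set ℕ).ncard : ℝ) ≤
      c.natAbs + (T.card : ℝ) := by exact_mod_cast h6
  have hlog : 0 < Real.log X := by linarith
  have h8 : (c.natAbs : ℝ) ≤ ε / 2 * L / Real.log X := by
    rw [le_div_iff₀ hlog]
    rw [pow_one, div_mul_eq_mul_div, div_le_iff₀ (by positivity)] at h3
    have h9 : (X : ℝ) ^ θ * (ε / 2) ≤ L * (ε / 2) := mul_le_mul_of_nonneg_right hL (by positivity)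
    have h10 : ((c.natAbs : ℝ) + 1) * Real.log X = c.natAbs * Real.log X + Real.log X := by ring
    linarith
  have e : ε / 2 * L / Real.log X + ε / 2 * L / Real.log X = ε * L / Real.log X := by ring
  linarith

end Pool.Agent.Results.MP_2f88e5_nt.AlmostPrimesForAlmostAllPrimes
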