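import Pool.Agent.R502.TW.Fin2

/-!
# Long runs of multiples `m p` of almost all primes `p` with `m p + 1` and `m p - 1` composite

Let `λ, ε > 0` and `A ≥ 1`.  There are `c > 0` and `K₀` such that for `K ≥ K₀`, all large `X` and every
`L ≤ λ log X`, for all but `ε π(X)` of the primes `p` in `(X, 2X]` at least `c K` of the `K` blocks
`(i L, (i + 1) L]`, `i < K`, have the property: if `m / a` lies in the block, `1 ≤ a ≤ A`, then neither
`m p + a` nor `m p - a` is of the form `d n` with `1 ≤ d ≤ A` and a prime `n > p`.  In particular all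
the numbers `m p ± 1` with `i L < m ≤ (i + 1) L` are composite.

Proof: as for `SmallFractionsAvoided` (the integers `M + h p`, `M = (A!)²`, are up to units the shifts
of the integer `N(p) = M / p`, which is well distributed by the Bombieri-Vinogradov theorem), with
many blocks on both sides of the centre (second moment over the blocks) and an averaging argument.
-/

set_option autoImplicit false

open Finset

namespace Pool.Agent.Results.MP_2f88e5_nt.LongRunsForAlmostAllPrimes

open Classical in
/-- For almost all primes `p` a positive proportion of the first `K` blocks `(i L, (i + 1) L]` of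
length `L ≤ λ log X` are such that `m p + a` and `m p - a` are not of the form `d n`, `n > p` prime,
for all `m / a` of the block and all `a, d ≤ A`. -/
theorem result (lam ε : ℝ) (hlam : 0 < lam) (hε : 0 < ε) (A : ℕ) :
    ∃ c : ℝ, 0 < c ∧ ∃ K₀ : ℕ, ∀ K : ℕ, K₀ ≤ K → ∃ X₀ : ℕ, ∀ X : ℕ, X₀ ≤ X →
      ∀ L : ℕ, (L : ℝ) ≤ lam * Real.log X →
      (((Ioc X (2 * X)).filter (fun p => p.Prime ∧ (((range K).filter (fun i =>
        ∀ n d a m : ℕ, n.Prime → p < n → 1 ≤ d → d ≤ A → 1 ≤ a → a ≤ A →
        i * L * a < m → m ≤ (i + 1) * L * a →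
          d * n ≠ m * p + a ∧ d * n ≠ m * p - a)).card : ℝ) < c * K)).card : ℝ) ≤
        ε * Nat.primeCounting X :=
  Pool.Agent.R502.TW.almost_final lam ε hlam hε A

end Pool.Agent.Results.MP_2f88e5_nt.LongRunsForAlmostAllPrimes
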