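import Pool.Agent.R502.PF.Forms

set_option autoImplicit false

/-!
# Primes `p` with no prime `2 k p + 1` for all `k` up to the record size

For many primes `p` the numbers `2 k p + 1` (and all `a k p + b`, `a`, `b` fixed) are composite for all
`0 < |k| ≤ c f(p)`, `f` the largest known size of the gaps between primes: thus the least prime `≡ 1 (mod p)` is larger
than `c p f(p)`.

Proof: `Pool.Agent.TH101.RG.oneZ` of the starting files, a prime at which all the forms of a large structured family are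
composite (Bombieri-Vinogradov theorem, covering by the classes prescribed for `p` modulo the small primes): a
class `c ≢ 0` of the `k` modulo a prime `l` is killed by the class of `p` modulo `l` with `a c p + b ≡ 0`.
-/

open Filter

namespace Pool.Agent.Results.MP_2f88e5_nt.RecordPrimeFreeMultiples

/-- The record scale `f(x) = log x (log₂ x)² log₄ x / (log₃ x)²` (iterated natural logarithms). -/
noncomputable def f (x : ℝ) : ℝ :=
  Real.log x * (Real.log (Real.log x)) ^ 2 * Real.log (Real.log (Real.log (Real.log x))) /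
    (Real.log (Real.log (Real.log x))) ^ 2

/-- For all nonzero integers `a`, `b` and every squarefree `d` there is `c > 0` such that for all large `X` and all `h`
prime to `d`: at least `X^(9/10)` primes `p ∈ (X, 3X]`, `p ≡ h (mod d)`, are such that none of the
numbers `|a k p + b|`, `k` an integer with `0 < |k| ≤ c f(X)`, is prime.

With `a = 2`, `b = 1`: for at least `X^(9/10)` primes `p ∈ (X, 3X]` all the numbers `2 k p + 1` and `2 k p - 1`,
`1 ≤ k ≤ c f(X)`, are composite; with `a = 1`: the least prime `≡ b (mod p)` which is not `b` itself is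
larger than `c X f(X) - |b|`. -/
theorem result (a b : ℤ) (ha : a ≠ 0) (hb : b ≠ 0) (d : ℕ) (hd : Squarefree d) :
    ∃ c : ℝ, 0 < c ∧ ∃ X₀ : ℝ, ∀ X : ℝ, X₀ ≤ X → ∀ h : ℕ, h.Coprime d →
    X ^ (9 / 10 : ℝ) ≤ ({p : ℕ | p.Prime ∧ X < p ∧ (p : ℝ) ≤ 3 * X ∧ p ≡ h [MOD d] ∧
      ∀ k : ℤ, k ≠ 0 → |(k : ℝ)| ≤ c * f X → ¬ (a * k * p + b).natAbs.Prime}.ncard : ℝ) := by
  obtain ⟨c, hc, hX⟩ := Pool.Agent.R502.PF.forms a b ha hb d hd
  obtain ⟨X₀, hX₀⟩ := eventually_atTop.1 hX
  refine ⟨c, hc, X₀, fun X hXX h hh => ?_⟩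
  set S := {p : ℕ | p.Prime ∧ X < p ∧ (p : ℝ) ≤ 3 * X ∧ p ≡ h [MOD d] ∧
      ∀ k : ℤ, k ≠ 0 → |(k : ℝ)| ≤ c * f X → ¬ (a * k * p + b).natAbs.Prime} with hS
  have hfin : S.Finite := by
    apply (Set.finite_Iic ⌊3 * X⌋₊).subset
    intro p hp
    exact Set.mem_Iic.2 (Nat.le_floor hp.2.2.1)
  by_contra hcon
  push Not at hcon
  rw [Set.ncard_eq_toFinset_card S hfin] at hcon
  obtain ⟨p, hp, hXp, hp3, hpb, hpd, hmain⟩ := hX₀ X hXX h hh hfin.toFinset hcon.le
  apply hpb
  rw [Set.Finite.mem_toFinset]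
  exact ⟨hp, hXp, hp3, hpd, hmain⟩

end Pool.Agent.Results.MP_2f88e5_nt.RecordPrimeFreeMultiples
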