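import Pool.Agent.R502.TW.Fin2

/-!
# For a positive proportion of the primes `p` no prime `n ≤ λ p log p`, `n > p`, is a small fraction mod `p`

For every `λ` and `A` there is `c > 0` such that at least `c π(X)` of the primes `p ≤ X` have the
following property: if `n` is a prime with `p < n ≤ λ p log p`, then the residue of `n` modulo `p` is
not a fraction `a / d` with `1 ≤ d ≤ A`, `|a| ≤ A`.  In particular (`d = a = 1`) the numbers `2 k p + 1`
are composite for all `k` with `2 k p + 1 ≤ λ p log p`, for every `λ`.

Proof.  Modulo the product of all primes up to `X`, the integers `M + h p`, `M = (A!)²`, `|h| ≤ κ log X`,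
are up to units the shifts by `h` of one integer `N(p) = M / p`; by the Bombieri-Vinogradov theorem
`N(p)` is well distributed in the reduced classes, and the covering weights for blocks of shifts
(helper526, in the form of my modules `R502/AQ`) apply.  The primes `≤ A` are treated by a choice of
the class modulo the small primes for which all relevant `h` survive.
-/

set_option autoImplicit false

open Finset

namespace Pool.Agent.Results.MP_2f88e5_nt.SmallFractionsAvoided

open Classical in
/-- For all `λ > 0` and `A` a positive proportion of the primes `p` are such that no prime `n` with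
`p < n ≤ λ p log p` is congruent modulo `p` to a fraction `a / d` with `1 ≤ d ≤ A` and `|a| ≤ A`. -/
theorem result (lam : ℝ) (hlam : 0 < lam) (A : ℕ) :
    ∃ c : ℝ, 0 < c ∧ ∃ X₀ : ℕ, ∀ X : ℕ, X₀ ≤ X →
      c * Nat.primeCounting X ≤ (((Icc 1 X).filter (fun p => p.Prime ∧ ∀ n : ℕ, n.Prime → p < n →
        (n : ℝ) ≤ lam * p * Real.log p → ∀ d a : ℤ, 1 ≤ d → d ≤ A → |a| ≤ A →
          ¬ (p : ℤ) ∣ d * n - a)).card : ℝ) :=
  Pool.Agent.R502.TW.pos_final lam hlam A

end Pool.Agent.Results.MP_2f88e5_nt.SmallFractionsAvoided
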